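import Pool.Agent.Y851.PT.P9

/-!
# Functions with small cut norm on `R × C`: tuples and bounded weights
-/

set_option autoImplicit false

namespace Pool.Agent.U124.BW
open Finset Filter
open Pool.Agent.Y851.PS
open Pool.Agent.Y851.PT (simul_good union_good cut_mono cut_restrict cut_trunc tuples_lift)

variable {α β : Type}

open Classical in
/-- the conclusions for tuples, for an abstract function with small cut norm -/
theorem abs_products (δ M₂ : ℝ) (hδ : 0 < δ) (hM₂ : 1 ≤ M₂) : ∃ n₀ : ℕ, ∀ n : ℕ, 1 ≤ n →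
    ∃ f : ℝ, 0 < f ∧ ∀ M : ℝ, 1 ≤ M → ∃ κ δ' : ℝ, 0 < κ ∧ 0 < δ' ∧ ∀ (A : Finset α) (C : Finset β)
    (Z : α → β → ℝ) (L₁ L₂ : α → Prop), (∀ a c, 0 ≤ Z a c) → Cut A C Z δ' →
    ((A.filter (fun a => ¬ L₁ a)).card : ℝ) ≤ f * A.card →
    ((A.filter (fun a => ¬ L₂ a)).card : ℝ) ≤ δ ^ 2 / 16 * A.card →
    (∀ a ∈ A, L₁ a → ∑ c ∈ C, Z a c ^ 2 ≤ M * C.card) →
    (∀ a ∈ A, L₂ a → ∑ c ∈ C, Z a c ^ 2 ≤ M₂ * C.card) →
    (((Fintype.piFinset (fun _ : Fin n => C)).filter (fun y => ¬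
      (κ * A.card ≤ ((A.filter (fun a => ∀ j, 0 < Z a (y j))).card : ℝ)))).card : ℝ) ≤ δ * (C.card : ℝ) ^ n ∧
    (((Fintype.piFinset (fun _ : Fin n => A)).filter (fun y => ¬
      (κ * C.card ≤ ((C.filter (fun c => ∀ j, 0 < Z (y j) c)).card : ℝ)))).card : ℝ) ≤ δ * (A.card : ℝ) ^ n ∧
    (n₀ ≤ n →
      (((Fintype.piFinset (fun _ : Fin n => C)).filter (fun y => ¬
        ((1 - δ) * A.card ≤ ((A.filter (fun a => ∃ j, 0 < Z a (y j))).card : ℝ)))).card : ℝ) ≤ δ * (C.card : ℝ) ^ n ∧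
      (((Fintype.piFinset (fun _ : Fin n => A)).filter (fun y => ¬
        ((1 - δ) * C.card ≤ ((C.filter (fun c => ∃ j, 0 < Z (y j) c)).card : ℝ)))).card : ℝ) ≤ δ * (A.card : ℝ) ^ n) := by
  obtain ⟨na, hna⟩ := union_good α β M₂ δ hM₂ hδ
  obtain ⟨nb, hnb⟩ := union_good β α M₂ δ hM₂ hδ
  refine ⟨max na nb, fun n hn => ?_⟩
  have hn0 : (0 : ℝ) < n := by exact_mod_cast hn
  obtain ⟨f, hf⟩ : ∃ f, f = min (1 / 2) (δ / (2 * n)) := ⟨_, rfl⟩
  have hf0 : 0 < f := by rw [hf]; exact lt_min (by norm_num) (by positivity)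
  have hf1 : f ≤ 1 / 2 := by rw [hf]; exact min_le_left _ _
  have hf2 : n * f ≤ δ / 2 := by
    have h1 : f ≤ δ / (2 * n) := by rw [hf]; exact min_le_right _ _
    calc n * f ≤ n * (δ / (2 * n)) := mul_le_mul_of_nonneg_left h1 hn0.le
      _ = δ / 2 := by field_simp
  refine ⟨f, hf0, fun M hM => ?_⟩
  obtain ⟨κa, δa, hκa, hδa, hgooda⟩ := simul_good α β n M δ hM hδ
  obtain ⟨κb, δb, hκb, hδb, hgoodb⟩ := simul_good β α n M (δ / 2) hM (half_pos hδ)
  obtain ⟨δ', hδ'⟩ : ∃ δ', δ' = min (min (δa / 2) (δb / 2)) (δ ^ 2 / 16) := ⟨_, rfl⟩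
  have hδ'0 : 0 < δ' := by rw [hδ']; exact lt_min (lt_min (by positivity) (by positivity)) (by positivity)
  have hδ'a : 2 * δ' ≤ δa := by
    have : δ' ≤ δa / 2 := by rw [hδ']; exact (min_le_left _ _).trans (min_le_left _ _)
    linarith only [this]
  have hδ'b : 2 * δ' ≤ δb := by
    have : δ' ≤ δb / 2 := by rw [hδ']; exact (min_le_left _ _).trans (min_le_right _ _)
    linarith only [this]
  have hδ'c : δ' ≤ δ ^ 2 / 16 := by rw [hδ']; exact min_le_right _ _
  refine ⟨min (κa / 2) κb, δ', lt_min (half_pos hκa) hκb, hδ'0, ?_⟩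
  intro A C Z L₁ L₂ hZ0 hcut hs hs₂ hm hm₂
  -- the large elements
  obtain ⟨A1, hA1⟩ : ∃ A1, A1 = A.filter L₁ := ⟨_, rfl⟩
  have hA1A : A1 ⊆ A := by rw [hA1]; exact filter_subset _ _
  have hA1c : (1 - f) * A.card ≤ (A1.card : ℝ) := by
    have h3 : A1.card + (A.filter (fun a => ¬ L₁ a)).card = A.card := by
      rw [hA1, ← card_filter_add_card_filter_not (s := A) L₁]
    have h4 : (A1.card : ℝ) + ((A.filter (fun a => ¬ L₁ a)).card : ℝ) = A.card := by exact_mod_cast h3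
    linarith only [h4, hs]
  have hA1h : (A.card : ℝ) ≤ 2 * A1.card := by
    have h3 : (1 - 1 / 2) * (A.card : ℝ) ≤ (1 - f) * A.card := mul_le_mul_of_nonneg_right (by linarith only [hf1]) (Nat.cast_nonneg _)
    linarith only [h3, hA1c]
  have hcut1 : Cut A1 C Z (2 * δ') := cut_restrict hcut hδ'0.le hA1A hA1h
  have hM1 : ∑ a ∈ A1, ∑ c ∈ C, Z a c ^ 2 ≤ M * (A1.card * C.card) := by
    have h3 : ∀ a ∈ A1, ∑ c ∈ C, Z a c ^ 2 ≤ M * C.card := by
      intro a ha
      rw [hA1, mem_filter] at ha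
      exact hm a ha.1 ha.2
    refine (sum_le_sum h3).trans (le_of_eq ?_)
    rw [sum_const, nsmul_eq_mul]; ring
  -- the truncated function
  have hcut2 : Cut A C (fun a c => if L₂ a then Z a c else 0) (δ ^ 2 / 8) := by
    have h3 := cut_trunc hcut L₂ (f := δ ^ 2 / 16) (by convert hs₂)
    refine cut_mono ?_ (show δ' + δ ^ 2 / 16 ≤ δ ^ 2 / 8 by linarith only [hδ'c])
    convert h3
  have hW0 : ∀ (a : α) (c : β), 0 ≤ (if L₂ a then Z a c else 0) := by
    intro a c
    split_ifs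
    · exact hZ0 a c
    · exact le_rfl
  have hWpos : ∀ (a : α) (c : β), 0 < (if L₂ a then Z a c else 0) → 0 < Z a c := by
    intro a c h
    split_ifs at h with h3
    · exact h
    · exact absurd h (lt_irrefl _)
  have hM2 : ∑ a ∈ A, ∑ c ∈ C, (if L₂ a then Z a c else 0) ^ 2 ≤ M₂ * (A.card * C.card) := by
    have h3 : ∀ a ∈ A, ∑ c ∈ C, (if L₂ a then Z a c else 0) ^ 2 ≤ M₂ * C.card := by
      intro a ha
      by_cases h4 : L₂ a
      · simp only [h4, if_true]
        exact hm₂ a ha h4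
      · simp only [h4, if_false]
        rw [sum_congr rfl (g := fun _ => (0 : ℝ)) (fun _ _ => by norm_num), sum_const_zero]
        exact mul_nonneg (by linarith only [hM₂]) (Nat.cast_nonneg _)
    refine (sum_le_sum h3).trans (le_of_eq ?_)
    rw [sum_const, nsmul_eq_mul]; ring
  refine ⟨?_, ?_, ?_⟩
  · have h3 := hgooda A1 C Z (fun a _ c _ => hZ0 a c) (cut_mono hcut1 hδ'a) hM1
    refine le_trans ?_ h3
    apply Nat.cast_le.2
    apply card_le_card
    intro y hy
    rw [mem_filter] at hy ⊢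
    refine ⟨hy.1, fun hcon => hy.2 ?_⟩
    have h4 : min (κa / 2) κb * (A.card : ℝ) ≤ κa * A1.card := by
      calc min (κa / 2) κb * (A.card : ℝ) ≤ κa / 2 * A.card := mul_le_mul_of_nonneg_right (min_le_left _ _) (Nat.cast_nonneg _)
        _ ≤ κa / 2 * (2 * A1.card) := mul_le_mul_of_nonneg_left hA1h (half_pos hκa).le
        _ = κa * A1.card := by ring
    refine h4.trans (hcon.trans ?_)
    apply Nat.cast_le.2
    apply card_le_card
    intro a ha
    rw [mem_filter] at ha ⊢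
    exact ⟨hA1A ha.1, fun j => ha.2 j⟩
  · have h3 := hgoodb C A1 (fun c a => Z a c) (fun c _ a _ => hZ0 a c) (cut_mono hcut1 hδ'b).swap (by
      rw [sum_comm, mul_comm (C.card : ℝ)]; exact hM1)
    have h4 := tuples_lift A A1 hA1A n f (δ / 2) (by linarith only [hf1]) hA1c (half_pos hδ).le (fun y => ¬
      (min (κa / 2) κb * C.card ≤ ((C.filter (fun c => ∀ j, 0 < Z (y j) c)).card : ℝ))) (by
        refine le_trans ?_ h3
        apply Nat.cast_le.2
        apply card_le_card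
        intro y hy
        rw [mem_filter] at hy ⊢
        refine ⟨hy.1, fun hcon => hy.2 ?_⟩
        refine (mul_le_mul_of_nonneg_right (min_le_right _ _) (Nat.cast_nonneg _)).trans (hcon.trans ?_)
        exact le_rfl)
    refine h4.trans ?_
    apply mul_le_mul_of_nonneg_right _ (pow_nonneg (Nat.cast_nonneg _) n)
    linarith only [hf2]
  · intro hn2
    constructor
    · have h3 := hna n ((le_max_left _ _).trans hn2) A C (fun a c => if L₂ a then Z a c else 0)
        (fun a _ c _ => hW0 a c) hcut2 hM2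
      refine le_trans ?_ h3
      apply Nat.cast_le.2
      apply card_le_card
      intro y hy
      rw [mem_filter] at hy ⊢
      refine ⟨hy.1, fun hcon => hy.2 (hcon.trans ?_)⟩
      apply Nat.cast_le.2
      apply card_le_card
      intro a ha
      rw [mem_filter] at ha ⊢
      obtain ⟨j, hj⟩ := ha.2
      exact ⟨ha.1, j, hWpos _ _ hj⟩
    · have h3 := hnb n ((le_max_right _ _).trans hn2) C A (fun c a => if L₂ a then Z a c else 0)
        (fun c _ a _ => hW0 a c) hcut2.swap (by rw [sum_comm, mul_comm (C.card : ℝ)]; exact hM2)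
      refine le_trans ?_ h3
      apply Nat.cast_le.2
      apply card_le_card
      intro y hy
      rw [mem_filter] at hy ⊢
      refine ⟨hy.1, fun hcon => hy.2 (hcon.trans ?_)⟩
      apply Nat.cast_le.2
      apply card_le_card
      intro c hc
      rw [mem_filter] at hc ⊢
      obtain ⟨j, hj⟩ := hc.2
      exact ⟨hc.1, j, hWpos _ _ hj⟩

/-! ### bounded complex weights -/

theorem bil_one {A : Finset α} {C : Finset β} {Z : α → β → ℝ} {δ : ℝ} (h : Cut A C Z δ)
    (f : α → ℂ) (hf : ∀ a ∈ A, ‖f a‖ ≤ 1) :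
    ∑ c ∈ C, ‖∑ a ∈ A, f a * ((Z a c : ℂ) - 1)‖ ≤ 8 * (δ * (A.card * C.card)) := by
  have hre : ∀ a ∈ A, |(f a).re| ≤ 1 := fun a ha => (Complex.abs_re_le_norm _).trans (hf a ha)
  have him : ∀ a ∈ A, |(f a).im| ≤ 1 := fun a ha => (Complex.abs_im_le_norm _).trans (hf a ha)
  have key : ∀ u : α → ℝ, (∀ a ∈ A, |u a| ≤ 1) →
      ∑ c ∈ C, |∑ a ∈ A, u a * (Z a c - 1)| ≤ 4 * (δ * (A.card * C.card)) := by
    intro u hu
    have h1 := cut_abs h (fun a => max (u a) 0) 1 zero_le_one (fun a _ => le_max_right _ _)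
      (fun a ha => max_le ((le_abs_self _).trans (hu a ha)) zero_le_one)
    have h2 := cut_abs h (fun a => max (-u a) 0) 1 zero_le_one (fun a _ => le_max_right _ _)
      (fun a ha => max_le ((neg_le_abs _).trans (hu a ha)) zero_le_one)
    have h3 : ∑ c ∈ C, |∑ a ∈ A, u a * (Z a c - 1)| ≤
        ∑ c ∈ C, |∑ a ∈ A, max (u a) 0 * (Z a c - 1)| +
          ∑ c ∈ C, |∑ a ∈ A, max (-u a) 0 * (Z a c - 1)| := by
      rw [← sum_add_distrib]
      apply sum_le_sum
      intro c _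
      have e : ∑ a ∈ A, u a * (Z a c - 1) = ∑ a ∈ A, max (u a) 0 * (Z a c - 1)
          - ∑ a ∈ A, max (-u a) 0 * (Z a c - 1) := by
        rw [← sum_sub_distrib]
        apply sum_congr rfl
        intro a _
        rw [← sub_mul]
        congr 1
        rcases le_total 0 (u a) with h4 | h4
        · rw [max_eq_left h4, max_eq_right (by linarith), sub_zero]
        · rw [max_eq_right h4, max_eq_left (by linarith)]; ring
      rw [e]
      exact abs_sub _ _
    linarith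
  have h1 := key (fun a => (f a).re) hre
  have h2 := key (fun a => (f a).im) him
  have h3 : ∑ c ∈ C, ‖∑ a ∈ A, f a * ((Z a c : ℂ) - 1)‖ ≤
      ∑ c ∈ C, |∑ a ∈ A, (f a).re * (Z a c - 1)| + ∑ c ∈ C, |∑ a ∈ A, (f a).im * (Z a c - 1)| := by
    rw [← sum_add_distrib]
    apply sum_le_sum
    intro c _
    refine (Complex.norm_le_abs_re_add_abs_im _).trans (le_of_eq ?_)
    congr 2
    · rw [Complex.re_sum]
      apply sum_congr rfl
      intro a _
      simp
    · rw [Complex.im_sum]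
      apply sum_congr rfl
      intro a _
      simp
  linarith

theorem bil {A : Finset α} {C : Finset β} {Z : α → β → ℝ} {δ : ℝ} (h : Cut A C Z δ)
    (f : α → ℂ) (g : β → ℂ) (hf : ∀ a ∈ A, ‖f a‖ ≤ 1) (hg : ∀ c ∈ C, ‖g c‖ ≤ 1) :
    ‖∑ a ∈ A, ∑ c ∈ C, f a * g c * ((Z a c : ℂ) - 1)‖ ≤ 8 * (δ * (A.card * C.card)) := by
  refine le_trans ?_ (bil_one h f hf)
  rw [sum_comm]
  refine (norm_sum_le _ _).trans (sum_le_sum fun c hc => ?_)
  have e : ∑ a ∈ A, f a * g c * ((Z a c : ℂ) - 1) = g c * ∑ a ∈ A, f a * ((Z a c : ℂ) - 1) := by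
    rw [mul_sum]
    apply sum_congr rfl
    intro a _
    ring
  rw [e, norm_mul]
  exact mul_le_of_le_one_left (norm_nonneg _) (hg c hc)

end Pool.Agent.U124.BW
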