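import Pool.Agent.U124.BW.A

/-!
# Windows at the products `a e c`, `(a, e)` in a dense relation between a dense set and any set
-/

set_option autoImplicit false

namespace Pool.Agent.U124.BW
open Finset Filter
open Pool.Agent.Y851.PS
open Pool.Agent.Y851.PT

/-- dilates of spread sets are spread -/
theorem spread_dil {B H θ η X κ e : ℝ} {C : Finset ℝ} (h : SpH B H (θ + η) X C) (hX : 1 < X)
    (hH : 0 < H) (hB : 0 ≤ B) (hκ : 0 < κ) (hκ1 : κ ≤ 1) (he1 : κ * X ^ η ≤ e) (he2 : e ≤ X ^ η) :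
    SpH (2 * B / κ) H θ X (C.image (fun c => e * c)) := by
  classical
  have hX0 : 0 < X := by linarith
  have hXη : 0 < X ^ η := by positivity
  have he : 0 < e := lt_of_lt_of_le (mul_pos hκ hXη) he1
  have hXθ : 0 < X ^ θ := by positivity
  have hsum : X ^ (θ + η) = X ^ θ * X ^ η := Real.rpow_add hX0 _ _
  refine ⟨?_, ?_, ?_⟩
  · intro c hc
    obtain ⟨c', hc', rfl⟩ := mem_image.1 hc
    exact mul_pos he (h.pos c' hc')
  · intro c hc
    obtain ⟨c', hc', rfl⟩ := mem_image.1 hc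
    have h1 := h.le c' hc'
    have h2 : X ^ (1 - θ) = X ^ η * X ^ (1 - (θ + η)) := by
      rw [← Real.rpow_add hX0]; congr 1; ring
    rw [h2]
    exact mul_le_mul he2 h1 (h.pos c' hc').le hXη.le
  · intro u
    have hinj : Function.Injective (fun c : ℝ => e * c) := mul_right_injective₀ he.ne'
    have h1 : ((C.image (fun c => e * c)).filter (fun c => u ≤ c ∧ c ≤ u + H / X ^ θ)).card
        = (C.filter (fun c => u ≤ e * c ∧ e * c ≤ u + H / X ^ θ)).card := by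
      rw [filter_image, card_image_of_injective _ hinj]
    rw [h1, card_image_of_injective _ hinj]
    have hL : H / X ^ (θ + η) ≤ H / (X ^ θ * (κ * X ^ η)) := by
      apply div_le_div_of_nonneg_left hH.le (by positivity)
      rw [hsum]
      have : κ * (X ^ θ * X ^ η) ≤ 1 * (X ^ θ * X ^ η) := mul_le_mul_of_nonneg_right hκ1 (by positivity)
      linarith
    have h2 := h.long hX hH hB (u / e) (H / (X ^ θ * (κ * X ^ η))) hL
    refine le_trans ?_ (h2.trans (le_of_eq ?_))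
    · apply Nat.cast_le.2
      apply card_le_card
      intro c hc
      rw [mem_filter] at hc ⊢
      refine ⟨hc.1, ?_, ?_⟩
      · rw [div_le_iff₀ he]; linarith [hc.2.1]
      · have h3 : H / X ^ θ ≤ e * (H / (X ^ θ * (κ * X ^ η))) := by
          have h4 : H / X ^ θ = (κ * X ^ η) * (H / (X ^ θ * (κ * X ^ η))) := by field_simp
          rw [h4]
          exact mul_le_mul_of_nonneg_right he1 (by positivity)
        have h5 : e * c ≤ e * (u / e + H / (X ^ θ * (κ * X ^ η))) := by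
          rw [mul_add, mul_div_cancel₀ _ he.ne']
          linarith [hc.2.2]
        exact le_of_mul_le_mul_left h5 he
    · have h6 : X ^ (θ + η - 1) = X ^ θ * X ^ η / X := by
        rw [Real.rpow_sub hX0, hsum, Real.rpow_one]
      rw [h6]
      field_simp

/-- the weight at `(a, e)` and `c` -/
noncomputable def WH (H : ℝ) (r : ℕ × ℝ) (c : ℝ) : ℝ := ZH H (r.1 * (r.2 * c))

open Classical in
/-- the basic facts for pairs -/
theorem base2 (θ η lam ϱ δ B κ₀ f : ℝ) (hθ : 0 < θ) (hlam : 0 < lam) (hϱ : 0 < ϱ) (hδ : 0 < δ) (hB : 0 ≤ B)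
    (hκ₀ : 0 < κ₀) (hκ₁ : κ₀ ≤ 1) (hf : 0 < f) :
    ∃ κ M : ℝ, 0 < κ ∧ 1 ≤ M ∧ ∀ δ' : ℝ, 0 < δ' → ∀ᶠ X : ℝ in atTop, ∀ H : ℝ, lam * Real.log X ≤ H → H ≤ X ^ (1 - ϱ) →
    ∀ (A : Finset ℕ) (E C : Finset ℝ), Adm δ θ X A → (∀ e ∈ E, κ₀ * X ^ η ≤ e ∧ e ≤ X ^ η) →
    SpH B H (θ + η) X C →
    0 < H ∧ (∀ e ∈ E, Cut A C (fun a c => WH H (a, e) c) δ') ∧
    ((A.filter (fun a : ℕ => (a : ℝ) < κ * X ^ θ)).card : ℝ) ≤ f * A.card ∧
    ∀ e ∈ E, ∀ a ∈ A, κ * X ^ θ ≤ (a : ℝ) → ∑ c ∈ C, WH H (a, e) c ^ 2 ≤ M * C.card := by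
  have hB' : 1 ≤ max 1 (2 * B / κ₀) := le_max_left _ _
  obtain ⟨κ, M, hκ, hM, hbase⟩ := base θ lam ϱ δ (max 1 (2 * B / κ₀)) f hθ hlam hϱ hδ hB' hf
  refine ⟨κ, M, hκ, hM, fun δ' hδ' => ?_⟩
  obtain ⟨κs, hκs, _, hsm⟩ := small_adm δ θ f hδ hθ hf
  filter_upwards [hbase δ' hδ', eventually_gt_atTop 1, hbase δ' hδ'] with X h1 hX1 _ H hH1 hH2 A E C hA hE hC
  have hX0 : 0 < X := by linarith
  have hlog : 0 < Real.log X := Real.log_pos hX1
  have hH : 0 < H := lt_of_lt_of_le (mul_pos hlam hlog) hH1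
  -- the dilates
  have hsp : ∀ e ∈ E, SpH (max 1 (2 * B / κ₀)) H θ X (C.image (fun c => e * c)) := by
    intro e he
    have h2 := spread_dil hC hX1 hH hB hκ₀ hκ₁ (hE e he).1 (hE e he).2
    refine ⟨h2.pos, h2.le, fun u => (h2.spread u).trans ?_⟩
    apply mul_le_mul_of_nonneg_right _ (Nat.cast_nonneg _)
    exact mul_le_mul_of_nonneg_right (le_max_right _ _) (by positivity)
  have hsp0 : SpH (max 1 (2 * B / κ₀)) H θ X (∅ : Finset ℝ) :=
    ⟨by simp, by simp, fun u => by simp⟩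
  have hepos : ∀ e ∈ E, 0 < e := fun e he =>
    lt_of_lt_of_le (mul_pos hκ₀ (by positivity)) (hE e he).1
  refine ⟨hH, ?_, (h1 H hH1 hH2 A ∅ hA hsp0).2.2.1, ?_⟩
  · intro e he A' hA' C' hC'
    have hinj : Function.Injective (fun c : ℝ => e * c) := mul_right_injective₀ (hepos e he).ne'
    have h2 := (h1 H hH1 hH2 A _ hA (hsp e he)).2.1 A' hA' (C'.image (fun c => e * c))
      (image_subset_image hC')
    rw [card_image_of_injective _ hinj] at h2
    refine le_trans (le_of_eq ?_) h2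
    congr 1
    apply sum_congr rfl
    intro a _
    rw [sum_image (fun x _ y _ hxy => hinj hxy)]
    rfl
  · intro e he a ha hκa
    have hinj : Function.Injective (fun c : ℝ => e * c) := mul_right_injective₀ (hepos e he).ne'
    have h2 := (h1 H hH1 hH2 A _ hA (hsp e he)).2.2.2 a ha hκa
    rw [card_image_of_injective _ hinj, sum_image (fun x _ y _ hxy => hinj hxy)] at h2
    exact h2

/-- the bilinear estimate for pairs -/
theorem tri {A : Finset ℕ} {E C : Finset ℝ} {H δ : ℝ}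
    (h : ∀ e ∈ E, Cut A C (fun a c => WH H (a, e) c) δ) (F : ℕ → ℝ → ℂ) (G : ℝ → ℝ → ℂ)
    (hF : ∀ a ∈ A, ∀ e ∈ E, ‖F a e‖ ≤ 1) (hG : ∀ e ∈ E, ∀ c ∈ C, ‖G e c‖ ≤ 1) :
    ‖∑ a ∈ A, ∑ e ∈ E, ∑ c ∈ C, F a e * G e c * ((WH H (a, e) c : ℂ) - 1)‖ ≤
      8 * δ * (A.card * E.card * C.card) := by
  rw [sum_comm]
  refine (norm_sum_le _ _).trans ?_
  have h1 : ∀ e ∈ E, ‖∑ a ∈ A, ∑ c ∈ C, F a e * G e c * ((WH H (a, e) c : ℂ) - 1)‖ ≤
      8 * (δ * (A.card * C.card)) := fun e he =>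
    bil (h e he) (fun a => F a e) (G e) (fun a ha => hF a ha e he) (hG e he)
  refine (sum_le_sum h1).trans (le_of_eq ?_)
  rw [sum_const, nsmul_eq_mul]
  ring

/-- the cut norm on a dense relation -/
theorem cut_rel {A : Finset ℕ} {E C : Finset ℝ} {H δ δ₀ : ℝ} (hδ : 0 ≤ δ) (hδ₀ : 0 < δ₀)
    (h : ∀ e ∈ E, Cut A C (fun a c => WH H (a, e) c) δ) (R : Finset (ℕ × ℝ)) (hR : R ⊆ A ×ˢ E)
    (hd : δ₀ * (A.card * E.card) ≤ R.card) :
    Cut R C (fun r c => WH H r c) (δ / δ₀) := by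
  classical
  intro R' hR' C' hC'
  have e1 : ∑ r ∈ R', ∑ c ∈ C', (WH H r c - 1)
      = ∑ e ∈ E, ∑ a ∈ A.filter (fun a => (a, e) ∈ R'), ∑ c ∈ C', (WH H (a, e) c - 1) := by
    have e2 : ∑ r ∈ R', ∑ c ∈ C', (WH H r c - 1) =
        ∑ r ∈ A ×ˢ E, if r ∈ R' then ∑ c ∈ C', (WH H r c - 1) else 0 := by
      rw [← sum_filter]
      congr 1
      ext r
      rw [mem_filter]
      exact ⟨fun hr => ⟨hR (hR' hr), hr⟩, fun hr => hr.2⟩
    rw [e2, sum_product_right]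
    apply sum_congr rfl
    intro e _
    rw [sum_filter]
  rw [e1]
  refine (abs_sum_le_sum_abs _ _).trans ?_
  have h1 : ∀ e ∈ E, |∑ a ∈ A.filter (fun a => (a, e) ∈ R'), ∑ c ∈ C', (WH H (a, e) c - 1)|
      ≤ δ * (A.card * C.card) := fun e he => h e he _ (filter_subset _ _) C' hC'
  refine (sum_le_sum h1).trans ?_
  rw [sum_const, nsmul_eq_mul]
  have h2 : (A.card : ℝ) * E.card ≤ R.card / δ₀ := by
    rw [le_div_iff₀ hδ₀]; linarith
  have hC0 : (0 : ℝ) ≤ C.card := Nat.cast_nonneg _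
  calc (E.card : ℝ) * (δ * (A.card * C.card)) = (δ * C.card) * (A.card * E.card) := by ring
    _ ≤ (δ * C.card) * (R.card / δ₀) := mul_le_mul_of_nonneg_left h2 (mul_nonneg hδ hC0)
    _ = δ / δ₀ * (R.card * C.card) := by ring

open Classical in
/-- the small pairs -/
theorem small_rel {A : Finset ℕ} {E : Finset ℝ} {f δ₀ t : ℝ} (hf : 0 ≤ f) (hδ₀ : 0 < δ₀)
    (hs : ((A.filter (fun a : ℕ => (a : ℝ) < t)).card : ℝ) ≤ δ₀ * f * A.card)
    (R : Finset (ℕ × ℝ)) (hR : R ⊆ A ×ˢ E) (hd : δ₀ * (A.card * E.card) ≤ R.card) :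
    ((R.filter (fun r : ℕ × ℝ => ¬ (t ≤ (r.1 : ℝ)))).card : ℝ) ≤ f * R.card := by
  have h1 : (R.filter (fun r : ℕ × ℝ => ¬ (t ≤ (r.1 : ℝ)))) ⊆
      (A.filter (fun a : ℕ => (a : ℝ) < t)) ×ˢ E := by
    intro r hr
    rw [mem_filter] at hr
    have h2 := mem_product.1 (hR hr.1)
    rw [mem_product, mem_filter]
    exact ⟨⟨h2.1, not_le.1 hr.2⟩, h2.2⟩
  have h2 := card_le_card h1
  rw [card_product] at h2
  have h3 : ((R.filter (fun r : ℕ × ℝ => ¬ (t ≤ (r.1 : ℝ)))).card : ℝ) ≤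
      ((A.filter (fun a : ℕ => (a : ℝ) < t)).card : ℝ) * E.card := by exact_mod_cast h2
  have hE : (0 : ℝ) ≤ E.card := Nat.cast_nonneg _
  calc ((R.filter (fun r : ℕ × ℝ => ¬ (t ≤ (r.1 : ℝ)))).card : ℝ) ≤
      ((A.filter (fun a : ℕ => (a : ℝ) < t)).card : ℝ) * E.card := h3
    _ ≤ δ₀ * f * A.card * E.card := mul_le_mul_of_nonneg_right hs hE
    _ = f * (δ₀ * (A.card * E.card)) := by ring
    _ ≤ f * R.card := mul_le_mul_of_nonneg_left hd hf

end Pool.Agent.U124.BW
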